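import Pool.Agent.Q263.Circ.Main
import Mathlib.Combinatorics.SimpleGraph.Connectivity.Subgraph
import Mathlib.Combinatorics.SimpleGraph.Paths
import Mathlib.Combinatorics.SimpleGraph.DegreeSum

/-!
# Cycles through cliques, and blocks
-/

set_option autoImplicit false
set_option linter.unusedSectionVars false
open Finset
open scoped Classical

namespace Pool.Agent.Q263.Circ

variable {V : Type*} [Fintype V] {G : SimpleGraph V}

/-- The number of vertices of a longest cycle of `G` that passes through every vertex of `T`. -/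
noncomputable def gam (G : SimpleGraph V) (T : Finset V) : ℕ :=
  sSup {k | ∃ (v : V) (c : G.Walk v v), c.IsCycle ∧ c.length = k ∧ ∀ x ∈ T, x ∈ c.support}

/-- The subgraph induced on `B` is connected and has no cut vertex. -/
def NonSep (G : SimpleGraph V) (B : Set V) : Prop :=
  (G.induce B).Connected ∧ ∀ v ∈ B, (G.induce (B \ {v})).Preconnected

/-- `B` is the vertex set of a block of `G`: a maximal connected subgraph without a cut vertex. -/
def IsBlock (G : SimpleGraph V) (B : Set V) : Prop := Maximal (NonSep G) B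

theorem cycle_length_le {v : V} {c : G.Walk v v} (hc : c.IsCycle) :
    c.length ≤ Fintype.card V := by
  have h1 := hc.support_nodup
  have h2 : c.support.tail.length = c.length := by simp
  rw [← h2, ← List.toFinset_card_of_nodup h1]
  exact card_le_univ _

theorem gam_bdd (T : Finset V) :
    BddAbove {k | ∃ (v : V) (c : G.Walk v v), c.IsCycle ∧ c.length = k ∧ ∀ x ∈ T, x ∈ c.support} := by
  refine ⟨Fintype.card V, ?_⟩
  rintro k ⟨v, c, hc, rfl, -⟩
  exact cycle_length_le hc

/-- A closed list of at least three vertices gives a cycle. -/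
theorem exists_cycle_of_list {l : List V} (hn : l.Nodup) (hch : l.IsChain G.Adj)
    (h3 : 3 ≤ l.length) (hcl : ∀ x ∈ l.getLast?, ∀ y ∈ l.head?, G.Adj x y) :
    ∃ (v : V) (c : G.Walk v v), c.IsCycle ∧ c.length = l.length ∧ ∀ x ∈ l, x ∈ c.support := by
  have hne : l ≠ [] := by rintro rfl; simp at h3
  have hadj : G.Adj (l.getLast hne) (l.head hne) :=
    hcl _ (by rw [Option.mem_def]; exact List.getLast?_eq_some_getLast hne)
      _ (by rw [Option.mem_def]; exact List.head?_eq_some_head hne)
  let p := SimpleGraph.Walk.ofSupport l hne hch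
  have hps : p.support = l := SimpleGraph.Walk.support_ofSupport hne hch
  have hpl : p.length = l.length - 1 := SimpleGraph.Walk.length_ofSupport hne hch
  refine ⟨_, SimpleGraph.Walk.cons hadj p, ?_, ?_, ?_⟩
  · rw [SimpleGraph.Walk.isCycle_iff_isPath_tail_and_le_length]
    constructor
    · simp only [SimpleGraph.Walk.getVert_cons_succ, SimpleGraph.Walk.tail_cons,
        SimpleGraph.Walk.isPath_copy]
      rw [SimpleGraph.Walk.isPath_def, hps]
      exact hn
    · rw [SimpleGraph.Walk.length_cons, hpl]; omega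
  · rw [SimpleGraph.Walk.length_cons, hpl]; omega
  · intro x hx
    rw [SimpleGraph.Walk.support_cons, hps]
    exact List.mem_cons_of_mem _ hx

theorem le_gam_of_list {T : Finset V} {l : List V} (hn : l.Nodup) (hch : l.IsChain G.Adj)
    (h3 : 3 ≤ l.length) (hcl : ∀ x ∈ l.getLast?, ∀ y ∈ l.head?, G.Adj x y)
    (hT : ∀ x ∈ T, x ∈ l) : l.length ≤ gam G T := by
  obtain ⟨v, c, hc, hlen, hsup⟩ := exists_cycle_of_list hn hch h3 hcl
  rw [← hlen]
  exact le_csSup (gam_bdd T) ⟨v, c, hc, rfl, fun x hx => hsup x (hT x hx)⟩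

/-- The neighbourhood of `v`. -/
noncomputable def nh (G : SimpleGraph V) (v : V) : Finset V := univ.filter fun y => G.Adj v y

theorem mem_nh {v y : V} : y ∈ nh G v ↔ G.Adj v y := by simp [nh]

/-- Paths in the neighbourhood of `v` extend to cycles through `v`. -/
theorem pl_succ_le_gam {t : ℕ} (ht : 3 ≤ t) {v : V} {S : Finset V}
    (hS : S ∈ Kc G (nh G v) (t - 1)) : pl G (nh G v) S + 1 ≤ gam G (insert v S) := by
  rw [mem_Kc] at hS
  obtain ⟨l, hl, hSl, hlen⟩ := exists_pl hS.2.2 hS.1
  have h1 : t - 1 ≤ pl G (nh G v) S := by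
    rw [← hS.2.1]; exact card_le_pl hS.2.2 hS.1
  have hlne : l ≠ [] := by
    rintro rfl
    simp at hlen
    omega
  rw [← hlen]
  have := le_gam_of_list (G := G) (T := insert v S) (l := v :: l) ?_ ?_ ?_ ?_ ?_
  · simpa using this
  · rw [List.nodup_cons]
    exact ⟨fun hv => G.loopless.irrefl _ (mem_nh.mp (hl.2.2 v hv)), hl.1⟩
  · rw [List.isChain_cons]
    refine ⟨fun y hy => ?_, hl.2.1⟩
    exact mem_nh.mp (hl.2.2 y (List.mem_of_mem_head? hy))
  · rw [List.length_cons]; omega
  · intro x hx y hy
    rw [Option.mem_def, List.head?_cons, Option.some_inj] at hy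
    rw [Option.mem_def, List.getLast?_cons_of_ne_nil hlne] at hx
    rw [← hy]
    exact (mem_nh.mp (hl.2.2 x (List.mem_of_getLast? hx))).symm
  · intro x hx
    rw [mem_insert] at hx
    rcases hx with rfl | hx
    · exact List.mem_cons_self
    · exact List.mem_cons_of_mem _ (hSl x hx)

/-! ### Nonseparable sets -/

theorem nonSep_union {A B : Set V} (hA : NonSep G A) (hB : NonSep G B) {u v : V} (huv : u ≠ v)
    (huA : u ∈ A) (huB : u ∈ B) (hvA : v ∈ A) (hvB : v ∈ B) : NonSep G (A ∪ B) := by
  refine ⟨SimpleGraph.induce_union_connected hA.1.preconnected hB.1.preconnected ⟨u, huA, huB⟩, ?_⟩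
  intro w _
  have hrem : ∀ C : Set V, NonSep G C → (G.induce (C \ {w})).Preconnected := by
    intro C hC
    by_cases hw : w ∈ C
    · exact hC.2 w hw
    · rw [Set.sdiff_singleton_eq_self hw]; exact hC.1.preconnected
  have hun : (A ∪ B) \ {w} = (A \ {w}) ∪ (B \ {w}) := Set.union_sdiff_distrib
  rw [hun]
  refine (SimpleGraph.induce_union_connected (hrem A hA) (hrem B hB) ?_).preconnected
  by_cases huw : u = w
  · refine ⟨v, ⟨hvA, ?_⟩, hvB, ?_⟩ <;> (rw [Set.mem_singleton_iff]; rintro rfl; exact huv huw)
  · exact ⟨u, ⟨huA, huw⟩, huB, huw⟩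

theorem preconnected_of_clique {K : Set V} (hK : G.IsClique K) : (G.induce K).Preconnected := by
  rintro ⟨x, hx⟩ ⟨y, hy⟩
  by_cases hxy : x = y
  · subst hxy; exact SimpleGraph.Reachable.refl _
  · apply SimpleGraph.Adj.reachable
    exact hK hx hy hxy

theorem nonSep_of_clique {K : Set V} (hK : G.IsClique K) (hne : K.Nonempty) : NonSep G K := by
  refine ⟨?_, fun v _ => preconnected_of_clique (hK.subset Set.sdiff_subset)⟩
  have : Nonempty K := hne.to_subtype
  exact ⟨preconnected_of_clique hK⟩

/-- The vertex set of a cycle is nonseparable. -/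
theorem nonSep_of_cycle {v : V} {c : G.Walk v v} (hc : c.IsCycle) :
    NonSep G {x | x ∈ c.support} := by
  refine ⟨c.connected_induce_support, ?_⟩
  intro x hx
  have hx' : x ∈ c.support := hx
  set c' := c.rotate x hx' with hc'def
  have hc' : c'.IsCycle := hc.rotate hx'
  have hsup : ∀ y, y ∈ c'.support ↔ y ∈ c.support := fun y =>
    SimpleGraph.Walk.mem_support_rotate_iff c x hx'
  have hset : {y | y ∈ c.support} = {y | y ∈ c'.support} := by
    ext y; exact (hsup y).symm
  rw [hset]
  clear_value c'
  clear hset hsup hc'def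
  cases c' with
  | nil => exact absurd hc' SimpleGraph.Walk.not_isCycle_nil
  | cons h p =>
    rename_i y
    rw [SimpleGraph.Walk.cons_isCycle_iff] at hc'
    obtain ⟨hp, -⟩ := hc'
    -- `p` is a path from `y` to `x`
    have hpr : p.reverse.IsPath := hp.reverse
    have hsup2 : ∀ z, z ∈ (SimpleGraph.Walk.cons h p).support ↔ z ∈ p.reverse.support := by
      intro z
      rw [SimpleGraph.Walk.support_cons, SimpleGraph.Walk.support_reverse, List.mem_reverse,
        List.mem_cons]
      constructor
      · rintro (rfl | hz)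
        · exact p.end_mem_support
        · exact hz
      · exact Or.inr
    have hset : {z | z ∈ (SimpleGraph.Walk.cons h p).support} = {z | z ∈ p.reverse.support} := by
      ext z; exact hsup2 z
    rw [hset]
    generalize p.reverse = q at hpr
    cases q with
    | nil => exact absurd h (G.loopless.irrefl _)
    | cons h2 q =>
      rw [SimpleGraph.Walk.cons_isPath_iff] at hpr
      have hset2 : {z | z ∈ (SimpleGraph.Walk.cons h2 q).support} \ {x} = {z | z ∈ q.support} := by
        ext z
        simp only [Set.mem_sdiff, Set.mem_ofPred_eq, SimpleGraph.Walk.support_cons, List.mem_cons,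
          Set.mem_singleton_iff]
        constructor
        · rintro ⟨h3 | h3, h4⟩
          · exact absurd h3 h4
          · exact h3
        · intro h3
          refine ⟨Or.inr h3, ?_⟩
          rintro rfl
          exact hpr.2 h3
      rw [hset2]
      exact q.connected_induce_support.preconnected

theorem exists_block {A : Set V} (hA : NonSep G A) : ∃ B, A ⊆ B ∧ IsBlock G B :=
  (Set.toFinite {B : Set V | NonSep G B}).exists_le_maximal hA

/-- A nonseparable set that shares two vertices with a block lies in the block. -/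
theorem subset_block {A B : Set V} (hA : NonSep G A) (hB : IsBlock G B) {u v : V} (huv : u ≠ v)
    (huA : u ∈ A) (huB : u ∈ B) (hvA : v ∈ A) (hvB : v ∈ B) : A ⊆ B := by
  have h1 := nonSep_union hA hB.1 huv huA huB hvA hvB
  have h2 := hB.2 h1 Set.subset_union_right
  exact Set.subset_union_left.trans h2

/-- Cycles through an edge of a block have at most as many vertices as the block. -/
theorem gam_le_block {B : Set V} (hB : IsBlock G B) {T : Finset V} {u v : V} (huv : u ≠ v)
    (huT : u ∈ T) (hvT : v ∈ T) (huB : u ∈ B) (hvB : v ∈ B)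
    (hne : {k | ∃ (v : V) (c : G.Walk v v), c.IsCycle ∧ c.length = k ∧
      ∀ x ∈ T, x ∈ c.support}.Nonempty) : gam G T ≤ B.ncard := by
  obtain ⟨x, c, hc, hlen, hT⟩ := Nat.sSup_mem hne (gam_bdd T)
  have h1 : gam G T = c.length := by rw [hlen]; rfl
  rw [h1]
  have hsub := subset_block (nonSep_of_cycle hc) hB huv (hT u huT) huB (hT v hvT) hvB
  have h2 := hc.support_nodup
  have h3 : c.support.tail.length = c.length := by simp
  rw [← h3, ← List.toFinset_card_of_nodup h2, ← Set.ncard_coe_finset]
  apply Set.ncard_le_ncard _ (Set.toFinite _)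
  intro y hy
  rw [mem_coe, List.mem_toFinset] at hy
  exact hsub (List.mem_of_mem_tail hy)

/-- A clique with at least three vertices lies on a cycle of its own length. -/
theorem card_le_gam {Q T : Finset V} (hQ : G.IsClique (Q : Set V)) (h3 : 3 ≤ Q.card) (hT : T ⊆ Q) :
    Q.card ≤ gam G T := by
  have := le_gam_of_list (G := G) (T := T) (l := Q.toList) Q.nodup_toList
    (isChain_of_clique Q.nodup_toList ?_) (by simpa using h3) ?_ ?_
  · simpa using this
  · intro x hx y hy hxy
    rw [mem_toList] at hx hy
    exact hQ hx hy hxy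
  · intro x hx y hy
    have hx' : x ∈ Q := mem_toList.mp (List.mem_of_getLast? hx)
    have hy' : y ∈ Q := mem_toList.mp (List.mem_of_mem_head? hy)
    refine hQ hx' hy' ?_
    rintro rfl
    -- first and last element of a list without repetition of length at least 3 differ
    have hlen : 3 ≤ Q.toList.length := by simpa using h3
    rw [Option.mem_def, List.head?_eq_getElem?, List.getElem?_eq_getElem (by omega),
      Option.some_inj] at hy
    rw [Option.mem_def, List.getLast?_eq_getElem?, List.getElem?_eq_getElem (by omega),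
      Option.some_inj] at hx
    have := (List.Nodup.getElem_inj_iff Q.nodup_toList).mp (hy.trans hx.symm)
    omega
  · intro x hx
    exact mem_toList.mpr (hT hx)

theorem gam_nonempty {T : Finset V} (hT : G.IsClique (T : Set V)) (h3 : 3 ≤ T.card) :
    {k | ∃ (v : V) (c : G.Walk v v), c.IsCycle ∧ c.length = k ∧ ∀ x ∈ T, x ∈ c.support}.Nonempty := by
  have hlen : 3 ≤ T.toList.length := by simpa using h3
  obtain ⟨v, c, hc, hl, hs⟩ := exists_cycle_of_list (G := G) (l := T.toList) T.nodup_toList
    (isChain_of_clique T.nodup_toList (fun x hx y hy hxy => hT (mem_toList.mp hx)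
      (mem_toList.mp hy) hxy)) hlen (by
    intro x hx y hy
    have hx' : x ∈ T := mem_toList.mp (List.mem_of_getLast? hx)
    have hy' : y ∈ T := mem_toList.mp (List.mem_of_mem_head? hy)
    refine hT hx' hy' ?_
    rintro rfl
    rw [Option.mem_def, List.head?_eq_getElem?, List.getElem?_eq_getElem (by omega),
      Option.some_inj] at hy
    rw [Option.mem_def, List.getLast?_eq_getElem?, List.getElem?_eq_getElem (by omega),
      Option.some_inj] at hx
    have := (List.Nodup.getElem_inj_iff T.nodup_toList).mp (hy.trans hx.symm)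
    omega)
  exact ⟨_, v, c, hc, rfl, fun x hx => hs x (mem_toList.mpr hx)⟩

/-- The ear argument: a clique properly contained in a block lies on a longer cycle. -/
theorem ear {B : Set V} (hB : NonSep G B) {Q : Finset V} (hQ : G.IsClique (Q : Set V))
    (h3 : 3 ≤ Q.card) (hQB : (Q : Set V) ⊆ B) (hne : ∃ y ∈ B, y ∉ Q) {T : Finset V} (hT : T ⊆ Q) :
    Q.card + 1 ≤ gam G T := by
  obtain ⟨z, hzB, hzQ⟩ := hne
  obtain ⟨q, hq⟩ : Q.Nonempty := by rw [← card_pos]; omega
  -- an edge from `Q` to `B \ Q`
  obtain ⟨w⟩ := hB.1.preconnected ⟨q, hQB hq⟩ ⟨z, hzB⟩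
  obtain ⟨d, -, hd1, hd2⟩ := w.exists_boundary_dart {x | (x : V) ∈ Q} hq hzQ
  set q1 : V := d.fst.1 with hq1
  set y : V := d.snd.1 with hy
  have hq1Q : q1 ∈ Q := hd1
  have hyQ : y ∉ Q := hd2
  have hyB : y ∈ B := d.snd.2
  have hadj : G.Adj q1 y := d.adj
  clear_value q1 y
  clear hq1 hy hd1 hd2
  -- a path from `y` to `Q` in `B \ {q1}`
  obtain ⟨q', hq'Q, hq'1⟩ := exists_mem_ne (show 1 < Q.card by omega) q1
  have hyq1 : y ≠ q1 := fun h => hyQ (h ▸ hq1Q)
  obtain ⟨p⟩ := (hB.2 q1 (hQB hq1Q)) ⟨y, hyB, hyq1⟩ ⟨q', hQB hq'Q, hq'1⟩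
  have hpP : p.bypass.IsPath := p.bypass_isPath
  set L : List V := p.bypass.support.map Subtype.val with hL
  have hLn : L.Nodup := by
    rw [hL]
    exact List.Nodup.map Subtype.val_injective hpP.support_nodup
  have hLc : L.IsChain G.Adj := by
    rw [hL]
    exact List.isChain_map_of_isChain (S := G.Adj) Subtype.val (fun a b h => h)
      p.bypass.isChain_adj_support
  have hLhead : L.head? = some y := by
    rw [hL, SimpleGraph.Walk.support_eq_cons]
    rfl
  have hLq' : q' ∈ L := by
    rw [hL, List.mem_map]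
    exact ⟨⟨q', hQB hq'Q, hq'1⟩, SimpleGraph.Walk.end_mem_support _, rfl⟩
  have hLq1 : q1 ∉ L := by
    rw [hL, List.mem_map]
    rintro ⟨x, -, hx⟩
    exact x.2.2 hx
  clear_value L
  clear hL hpP
  -- split at the first vertex in `Q`
  have hsplit : ∃ l1 q2 l3, L = l1 ++ q2 :: l3 ∧ q2 ∈ Q ∧ ∀ x ∈ l1, x ∉ Q := by
    clear hLn hLc hLhead hLq1
    induction L with
    | nil => exact absurd hLq' List.not_mem_nil
    | cons a L ih =>
      by_cases ha : a ∈ Q
      · exact ⟨[], a, L, rfl, ha, by simp⟩
      · have : q' ∈ L := by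
          rcases List.mem_cons.mp hLq' with h | h
          · exact absurd (h ▸ hq'Q) ha
          · exact h
        obtain ⟨l1, q2, l3, h1, h2, h4⟩ := ih this
        refine ⟨a :: l1, q2, l3, by rw [h1]; rfl, h2, ?_⟩
        intro x hx
        rcases List.mem_cons.mp hx with rfl | hx
        · exact ha
        · exact h4 x hx
  obtain ⟨l1, q2, l3, rfl, hq2, hl1⟩ := hsplit
  have hl1ne : l1 ≠ [] := by
    rintro rfl
    rw [List.nil_append, List.head?_cons, Option.some_inj] at hLhead
    exact hyQ (hLhead ▸ hq2)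
  have hq21 : q2 ≠ q1 := by
    rintro rfl
    exact hLq1 (by simp)
  set R : List V := ((Q.erase q1).erase q2).toList with hR
  have hRmem : ∀ x, x ∈ R ↔ x ∈ Q ∧ x ≠ q1 ∧ x ≠ q2 := by
    intro x
    rw [hR, mem_toList, mem_erase, mem_erase]
    tauto
  have hRn : R.Nodup := by rw [hR]; exact nodup_toList _
  have hRlen : R.length = Q.card - 2 := by
    rw [hR, length_toList, card_erase_of_mem (mem_erase.mpr ⟨hq21, hq2⟩),
      card_erase_of_mem hq1Q]
    omega
  clear_value R
  have hl1n : l1.Nodup := (List.nodup_append.mp hLn).1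
  have hl1c : l1.IsChain G.Adj := hLc.left_of_append
  have hl1last : ∀ x ∈ l1.getLast?, G.Adj x q2 := by
    intro x hx
    exact (List.isChain_append.mp hLc).2.2 x hx q2 (by simp)
  have hl1q1 : q1 ∉ l1 := fun h => hLq1 (List.mem_append_left _ h)
  have hl1head : l1.head? = some y := by
    rw [← hLhead, List.head?_append_of_ne_nil _ hl1ne]
  have hq2Rn : (q2 :: R).Nodup := by
    rw [List.nodup_cons]
    exact ⟨fun h => ((hRmem q2).mp h).2.2 rfl, hRn⟩
  have hq2RQ : ∀ x ∈ q2 :: R, x ∈ Q := by
    intro x hx
    rcases List.mem_cons.mp hx with rfl | hx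
    · exact hq2
    · exact ((hRmem x).mp hx).1
  have hq2Rq1 : ∀ x ∈ q2 :: R, x ≠ q1 := by
    intro x hx
    rcases List.mem_cons.mp hx with rfl | hx
    · exact hq21
    · exact ((hRmem x).mp hx).2.1
  have hfin := le_gam_of_list (G := G) (T := T) (l := q1 :: (l1 ++ (q2 :: R))) ?_ ?_ ?_ ?_ ?_
  · have hl1pos : 0 < l1.length := List.length_pos_iff.mpr hl1ne
    rw [List.length_cons, List.length_append, List.length_cons, hRlen] at hfin
    omega
  · rw [List.nodup_cons, List.nodup_append]
    refine ⟨?_, hl1n, hq2Rn, ?_⟩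
    · rw [List.mem_append]
      rintro (h | h)
      · exact hl1q1 h
      · exact hq2Rq1 q1 h rfl
    · intro a ha b hb hab
      exact hl1 a ha (hab ▸ hq2RQ b hb)
  · rw [List.isChain_cons]
    constructor
    · intro x hx
      rw [Option.mem_def, List.head?_append_of_ne_nil _ hl1ne, hl1head, Option.some_inj] at hx
      rw [← hx]; exact hadj
    · refine List.IsChain.append hl1c (isChain_of_clique hq2Rn ?_) ?_
      · intro a ha b hb hab
        exact hQ (hq2RQ a ha) (hq2RQ b hb) hab
      · intro a ha b hb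
        rw [Option.mem_def, List.head?_cons, Option.some_inj] at hb
        rw [← hb]; exact hl1last a ha
  · rw [List.length_cons, List.length_append, List.length_cons, hRlen]
    have hl1pos : 0 < l1.length := List.length_pos_iff.mpr hl1ne
    omega
  · intro a ha b hb
    rw [Option.mem_def, List.head?_cons, Option.some_inj] at hb
    rw [Option.mem_def, List.getLast?_cons_of_ne_nil (by simp),
      List.getLast?_append_of_ne_nil _ (by simp)] at ha
    have ha' := List.mem_of_getLast? ha
    rw [← hb]
    exact hQ (hq2RQ a ha') hq1Q (hq2Rq1 a ha')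
  · intro x hx
    have hxQ := hT hx
    by_cases h1 : x = q1
    · rw [h1]; exact List.mem_cons_self
    · apply List.mem_cons_of_mem
      apply List.mem_append_right
      by_cases h2 : x = q2
      · rw [h2]; exact List.mem_cons_self
      · exact List.mem_cons_of_mem _ ((hRmem x).mpr ⟨hxQ, h1, h2⟩)

end Pool.Agent.Q263.Circ
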