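import Pool.Agent.Q263.Circ.Path

/-!
# Localised bound for cliques and paths: the induction
-/

set_option autoImplicit false
set_option linter.unusedSectionVars false
open Finset
open scoped Classical

namespace Pool.Agent.Q263.Circ

variable {V : Type*} [Fintype V] {G : SimpleGraph V}

/-- A closed sequence of vertices. -/
def IsCyc (G : SimpleGraph V) (c : List V) : Prop :=
  c.Nodup ∧ c.IsChain G.Adj ∧ ∀ x ∈ c.getLast?, ∀ y ∈ c.head?, G.Adj x y

theorem cyc_rotate {c : List V} (hc : IsCyc G c) {x : V} (hx : x ∈ c) :
    ∃ c' : List V, c'.Perm c ∧ c'.IsChain G.Adj ∧ c'.getLast? = some x := by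
  obtain ⟨c1, c2, rfl⟩ := List.append_of_mem hx
  refine ⟨c2 ++ (c1 ++ [x]), ?_, ?_, by simp⟩
  · have h1 : (c2 ++ (c1 ++ [x])).Perm ((c1 ++ [x]) ++ c2) := List.perm_append_comm
    simpa using h1
  · have hc' : ((c1 ++ [x]) ++ c2).IsChain G.Adj := by simpa using hc.2.1
    refine List.IsChain.append hc'.right_of_append hc'.left_of_append ?_
    intro u hu v hv
    refine hc.2.2 u ?_ v ?_
    · have hne : c2 ≠ [] := by
        rintro rfl
        simp at hu
      rw [Option.mem_def, List.getLast?_eq_some_getLast hne] at hu
      rw [Option.mem_def]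
      have : c1 ++ x :: c2 = (c1 ++ [x]) ++ c2 := by simp
      rw [this, List.getLast?_append_of_ne_nil _ hne, List.getLast?_eq_some_getLast hne]
      exact hu
    · cases c1 with
      | nil => simpa using hv
      | cons b c1 => simpa using hv

/-- The crossing chords argument. -/
theorem exists_cyc {U : Finset V} {l : List V} (hl : IsP G U l) {a b : V}
    (ha : l.head? = some a) (hb : l.getLast? = some b)
    (hNa : ∀ y ∈ U, G.Adj a y → y ∈ l) (hNb : ∀ y ∈ U, G.Adj b y → y ∈ l)
    (hda : l.length ≤ 2 * (U.filter fun y => G.Adj a y).card)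
    (hdb : l.length ≤ 2 * (U.filter fun y => G.Adj b y).card) :
    ∃ c : List V, c.Perm l ∧ IsCyc G c := by
  have hne : l ≠ [] := by rintro rfl; simp at ha
  have hk : 0 < l.length := List.length_pos_iff.mpr hne
  set k := l.length with hkdef
  let A : Finset ℕ := (range (k - 1)).filter fun i => ∃ y, l[i + 1]? = some y ∧ G.Adj a y
  let B : Finset ℕ := (range (k - 1)).filter fun i => ∃ y, l[i]? = some y ∧ G.Adj b y
  have hA : (U.filter fun y => G.Adj a y).card ≤ A.card := by
    have hsub : (U.filter fun y => G.Adj a y) ⊆ A.image fun i => (l[i + 1]?).getD a := by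
      intro y hy
      rw [mem_filter] at hy
      have hyl := hNa y hy.1 hy.2
      obtain ⟨i, hi, hiy⟩ := List.getElem_of_mem hyl
      have hi0 : i ≠ 0 := by
        rintro rfl
        rw [List.head?_eq_getElem?, List.getElem?_eq_getElem hi, Option.some_inj] at ha
        rw [ha] at hiy
        exact hy.2.ne hiy
      obtain ⟨j, rfl⟩ : ∃ j, i = j + 1 := ⟨i - 1, by omega⟩
      rw [mem_image]
      refine ⟨j, ?_, ?_⟩
      · rw [mem_filter, mem_range]
        refine ⟨by omega, y, ?_, hy.2⟩
        rw [List.getElem?_eq_getElem hi, hiy]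
      · rw [List.getElem?_eq_getElem hi, hiy]; rfl
    exact (card_le_card hsub).trans card_image_le
  have hB : (U.filter fun y => G.Adj b y).card ≤ B.card := by
    have hsub : (U.filter fun y => G.Adj b y) ⊆ B.image fun i => (l[i]?).getD b := by
      intro y hy
      rw [mem_filter] at hy
      have hyl := hNb y hy.1 hy.2
      obtain ⟨i, hi, hiy⟩ := List.getElem_of_mem hyl
      have hi0 : i ≠ k - 1 := by
        intro hik
        rw [List.getLast?_eq_getElem?, ← hkdef, ← hik, List.getElem?_eq_getElem hi,
          Option.some_inj] at hb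
        rw [hb] at hiy
        exact hy.2.ne hiy
      rw [mem_image]
      refine ⟨i, ?_, ?_⟩
      · rw [mem_filter, mem_range]
        refine ⟨by omega, y, ?_, hy.2⟩
        rw [List.getElem?_eq_getElem hi, hiy]
      · rw [List.getElem?_eq_getElem hi, hiy]; rfl
    exact (card_le_card hsub).trans card_image_le
  have hint : (A ∩ B).Nonempty := by
    rw [nonempty_iff_ne_empty]
    intro hempty
    have h1 := card_union_add_card_inter A B
    rw [hempty, card_empty] at h1
    have h2 : (A ∪ B).card ≤ k - 1 := by
      have : A ∪ B ⊆ range (k - 1) := union_subset (filter_subset _ _) (filter_subset _ _)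
      simpa using card_le_card this
    omega
  obtain ⟨i, hi⟩ := hint
  rw [mem_inter, mem_filter, mem_filter, mem_range] at hi
  obtain ⟨⟨hik, y, hy, hay⟩, -, z, hz, hbz⟩ := hi
  have hsplit : l.take (i + 1) ++ l.drop (i + 1) = l := List.take_append_drop _ _
  have hdne : l.drop (i + 1) ≠ [] := by
    rw [Ne, List.drop_eq_nil_iff]; omega
  have htne : l.take (i + 1) ≠ [] := by
    rw [Ne, List.take_eq_nil_iff]; push Not; exact ⟨by omega, hne⟩
  have hchain : (l.take (i + 1) ++ l.drop (i + 1)).IsChain G.Adj := by rw [hsplit]; exact hl.2.1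
  have hdhead : (l.drop (i + 1)).head? = some y := by
    rw [List.head?_drop, hy]
  have hdlast : (l.drop (i + 1)).getLast? = some b := by
    rw [← hb]
    conv_rhs => rw [← hsplit]
    rw [List.getLast?_append_of_ne_nil _ hdne]
  have htlast : (l.take (i + 1)).getLast? = some z := by
    rw [List.getLast?_eq_getElem?, List.length_take, min_eq_left (by omega),
      Nat.add_sub_cancel, List.getElem?_take, if_pos (by omega), hz]
  have hthead : (l.take (i + 1)).head? = some a := by
    rw [List.head?_take, if_neg (by omega), ha]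
  refine ⟨l.take (i + 1) ++ (l.drop (i + 1)).reverse, ?_, ?_, ?_, ?_⟩
  · conv_rhs => rw [← hsplit]
    exact List.Perm.append_left _ (List.reverse_perm _)
  · have hp : (l.take (i + 1) ++ (l.drop (i + 1)).reverse).Perm l := by
      conv_rhs => rw [← hsplit]
      exact List.Perm.append_left _ (List.reverse_perm _)
    exact hp.nodup_iff.mpr hl.1
  · refine List.IsChain.append hchain.left_of_append ?_ ?_
    · rw [List.isChain_reverse]
      exact hchain.right_of_append.imp fun _ _ h => h.symm
    · intro u hu v hv
      rw [Option.mem_def] at hu hv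
      rw [htlast, Option.some_inj] at hu
      rw [List.head?_reverse, hdlast, Option.some_inj] at hv
      rw [← hu, ← hv]
      exact hbz.symm
  · intro u hu v hv
    rw [Option.mem_def] at hu hv
    rw [List.getLast?_append_of_ne_nil _ (by simpa using hdne), List.getLast?_reverse, hdhead,
      Option.some_inj] at hu
    rw [List.head?_append_of_ne_nil _ htne, hthead, Option.some_inj] at hv
    rw [← hu, ← hv]
    exact hay.symm

/-- Case of an endpoint of small degree. -/
theorem case_one {U : Finset V} {s : ℕ} (hs : 2 ≤ s) {a : V} {l : List V}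
    (hl : IsP G U (a :: l)) (hmax : ∀ l', IsP G U l' → l'.length ≤ (a :: l).length)
    (hd : 2 * (U.filter fun y => G.Adj a y).card + 1 ≤ (a :: l).length)
    (ih1 : tot G (U.erase a) s ≤ (U.erase a).card)
    (ih2 : tot G (U.erase a) s = (U.erase a).card → EqU G (U.erase a) s) :
    tot G U s < U.card := by
  have haU : a ∈ U := hl.2.2 a List.mem_cons_self
  set k := (a :: l).length with hk
  have hN : ∀ y ∈ U, G.Adj a y → y ∈ a :: l := by
    intro y hy hay
    by_contra hyl
    have hP : IsP G U (y :: a :: l) := by
      refine ⟨List.nodup_cons.mpr ⟨hyl, hl.1⟩, ?_, ?_⟩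
      · rw [List.isChain_cons]
        refine ⟨fun z hz => ?_, hl.2.1⟩
        rw [Option.mem_def, List.head?_cons, Option.some_inj] at hz
        rw [← hz]; exact hay.symm
      · intro z hz
        rcases List.mem_cons.mp hz with rfl | hz
        · exact hy
        · exact hl.2.2 z hz
    have := hmax _ hP
    rw [List.length_cons] at this
    omega
  -- split the cliques
  have hsplit : Kc G U s = (Kc G (U.erase a) s) ∪ ((Kc G U s).filter fun S => a ∈ S) := by
    ext S
    rw [mem_union, mem_filter, mem_Kc, mem_Kc]
    constructor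
    · rintro ⟨h1, h2, h3⟩
      by_cases haS : a ∈ S
      · exact Or.inr ⟨⟨h1, h2, h3⟩, haS⟩
      · exact Or.inl ⟨subset_erase.mpr ⟨h1, haS⟩, h2, h3⟩
    · rintro (⟨h1, h2, h3⟩ | ⟨h, -⟩)
      · exact ⟨h1.trans (erase_subset _ _), h2, h3⟩
      · exact h
  have hdisj : Disjoint (Kc G (U.erase a) s) ((Kc G U s).filter fun S => a ∈ S) := by
    rw [disjoint_left]
    intro S h1 h2
    rw [mem_Kc] at h1
    rw [mem_filter] at h2
    exact (mem_erase.mp (h1.1 h2.2)).1 rfl
  have htot : tot G U s = ∑ S ∈ Kc G (U.erase a) s, w s (pl G U S)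
      + ∑ S ∈ (Kc G U s).filter (fun S => a ∈ S), w s (pl G U S) := by
    unfold tot
    rw [hsplit, sum_union hdisj, ← hsplit]
  -- cliques through `a`
  have hpl : ∀ S ∈ (Kc G U s).filter (fun S => a ∈ S), pl G U S = k ∧ s ≤ k := by
    intro S hS
    rw [mem_filter, mem_Kc] at hS
    obtain ⟨⟨h1, h2, h3⟩, haS⟩ := hS
    have hSl : ∀ x ∈ S, x ∈ a :: l := by
      intro x hx
      by_cases hxa : x = a
      · rw [hxa]; exact List.mem_cons_self
      · exact hN x (h1 hx) (h3 haS hx (Ne.symm hxa))
    have h4 : k ≤ pl G U S := le_pl hl hSl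
    have h5 : pl G U S ≤ k := pl_le h3 h1 fun l' hl' _ => hmax l' hl'
    refine ⟨le_antisymm h5 h4, ?_⟩
    rw [← h2]
    have : S ⊆ (a :: l).toFinset := fun x hx => List.mem_toFinset.mpr (hSl x hx)
    have := card_le_card this
    rwa [List.toFinset_card_of_nodup hl.1] at this
  set d := (U.filter fun y => G.Adj a y).card with hdd
  have hcount : ((Kc G U s).filter fun S => a ∈ S).card ≤ d.choose (s - 1) := by
    rw [hdd, ← card_powersetCard]
    apply card_le_card_of_injOn (fun S => S.erase a)
    · intro S hS
      rw [mem_coe, mem_filter, mem_Kc] at hS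
      obtain ⟨⟨h1, h2, h3⟩, haS⟩ := hS
      rw [mem_coe, mem_powersetCard]
      refine ⟨fun x hx => ?_, by rw [card_erase_of_mem haS, h2]⟩
      rw [mem_erase] at hx
      rw [mem_filter]
      exact ⟨h1 hx.2, h3 haS hx.2 (Ne.symm hx.1)⟩
    · intro S hS T hT hST
      rw [mem_coe, mem_filter] at hS hT
      have := congrArg (insert a) hST
      simpa [insert_erase hS.2, insert_erase hT.2] using this
  have hsum2 : ∑ S ∈ (Kc G U s).filter (fun S => a ∈ S), w s (pl G U S)
      = ((Kc G U s).filter fun S => a ∈ S).card * w s k := by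
    rw [sum_congr rfl fun S hS => by rw [(hpl S hS).1], sum_const, nsmul_eq_mul]
  have hsum1 : ∑ S ∈ Kc G (U.erase a) s, w s (pl G U S) ≤ tot G (U.erase a) s := by
    apply sum_le_sum
    intro S hS
    rw [mem_Kc] at hS
    apply w_anti (by omega)
    · rw [← hS.2.1]; exact card_le_pl hS.2.2 hS.1
    · exact pl_mono hS.2.2 hS.1 (erase_subset _ _)
  have hcardU : (U.card : ℚ) = (U.erase a).card + 1 := by
    rw [← card_erase_add_one haU]; push_cast; ring
  rcases ((Kc G U s).filter fun S => a ∈ S).eq_empty_or_nonempty with hemp | hnonemp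
  · rw [htot, hemp, sum_empty, hcardU]
    linarith
  obtain ⟨S0, hS0⟩ := hnonemp
  have hsk : s ≤ k := (hpl S0 hS0).2
  have hsum2' : ∑ S ∈ (Kc G U s).filter (fun S => a ∈ S), w s (pl G U S) ≤ 1 := by
    rw [hsum2]
    have h1 := end_bound hs hd hsk
    have h2 : (((Kc G U s).filter fun S => a ∈ S).card : ℚ) ≤ (d.choose (s - 1) : ℚ) := by
      exact_mod_cast hcount
    exact (mul_le_mul_of_nonneg_right h2 (w_pos (by omega) hsk).le).trans h1
  by_contra hcon
  push Not at hcon
  rw [htot, hcardU] at hcon
  have heq : tot G (U.erase a) s = (U.erase a).card := by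
    apply le_antisymm ih1
    linarith
  have hE := ih2 heq
  have hsumeq : ∑ S ∈ Kc G (U.erase a) s, w s (pl G U S) = tot G (U.erase a) s := by
    apply le_antisymm hsum1
    linarith
  -- a neighbour of `a`
  rw [mem_filter, mem_Kc] at hS0
  obtain ⟨⟨h1, h2, h3⟩, haS⟩ := hS0
  have hcS : 1 < S0.card := by omega
  obtain ⟨y, hyS, hya⟩ := exists_mem_ne hcS a
  have hyU : y ∈ U.erase a := mem_erase.mpr ⟨hya, h1 hyS⟩
  have hay : G.Adj a y := h3 haS hyS (Ne.symm hya)
  -- the closed neighbourhood of `y`
  set N := (U.erase a).filter fun z => G.Adj y z with hNdef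
  have hyN : y ∉ N := by
    rw [hNdef, mem_filter]
    exact fun h => G.loopless.irrefl _ h.2
  have hKcl : G.IsClique ((insert y N : Finset V) : Set V) := by
    intro u hu v hv huv
    rw [mem_coe, mem_insert, hNdef, mem_filter] at hu hv
    rcases hu with rfl | hu <;> rcases hv with rfl | hv
    · exact absurd rfl huv
    · exact hv.2
    · exact hu.2.symm
    · exact hE.1 u hu.1 y hyU v hv.1 hu.2.symm hv.2 huv
  have hKsub : insert y N ⊆ U.erase a :=
    insert_subset hyU (filter_subset _ _)
  have hKcard : s ≤ (insert y N).card := by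
    rw [card_insert_of_notMem hyN]
    exact hE.2 y hyU
  obtain ⟨S, hSK, hSs⟩ := exists_subset_card_eq hKcard
  have hScl : G.IsClique (S : Set V) := hKcl.subset (by exact_mod_cast hSK)
  have hSKc : S ∈ Kc G (U.erase a) s := by
    rw [mem_Kc]; exact ⟨hSK.trans hKsub, hSs, hScl⟩
  have hne : S.Nonempty := by rw [← card_pos]; omega
  -- in `U \ {a}`
  have hpl1 : pl G (U.erase a) S ≤ (insert y N).card := by
    apply pl_le hScl (hSK.trans hKsub)
    intro l' hl' hSl'
    obtain ⟨x, hx⟩ := hne
    have hstay := path_in_nbhd hE.1 y hyU l' hl' ⟨x, hSl' x hx, by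
      have := hSK hx
      rw [mem_insert, hNdef, mem_filter] at this
      exact this.imp id And.right⟩
    rw [← List.toFinset_card_of_nodup hl'.1]
    apply card_le_card
    intro z hz
    rw [List.mem_toFinset] at hz
    rw [mem_insert, hNdef, mem_filter]
    exact (hstay z hz).imp id fun h => ⟨hl'.2.2 z hz, h⟩
  -- in `U`
  have hpl2 : (insert y N).card + 1 ≤ pl G U S := by
    have hPath : IsP G U (a :: y :: N.toList) := by
      refine ⟨?_, ?_, ?_⟩
      · rw [List.nodup_cons, List.nodup_cons]
        refine ⟨?_, ?_, N.nodup_toList⟩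
        · rw [List.mem_cons, mem_toList]
          rintro (h | h)
          · exact hya h.symm
          · rw [hNdef, mem_filter, mem_erase] at h
            exact h.1.1 rfl
        · rwa [mem_toList]
      · rw [List.isChain_cons_cons]
        refine ⟨hay, isChain_of_clique ?_ ?_⟩
        · rw [List.nodup_cons]
          exact ⟨by rwa [mem_toList], N.nodup_toList⟩
        · intro u hu v hv huv
          apply hKcl _ _ huv
          · rw [mem_coe, mem_insert]
            rcases List.mem_cons.mp hu with h | h
            · exact Or.inl h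
            · exact Or.inr (mem_toList.mp h)
          · rw [mem_coe, mem_insert]
            rcases List.mem_cons.mp hv with h | h
            · exact Or.inl h
            · exact Or.inr (mem_toList.mp h)
      · intro x hx
        rcases List.mem_cons.mp hx with rfl | hx
        · exact haU
        · rcases List.mem_cons.mp hx with rfl | hx
          · exact erase_subset _ _ hyU
          · exact erase_subset _ _ (hKsub (mem_insert_of_mem (mem_toList.mp hx)))
    have := le_pl (S := S) hPath (fun x hx => by
      have := hSK hx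
      rw [mem_insert] at this
      rcases this with h | h
      · rw [h]; simp
      · exact List.mem_cons_of_mem _ (List.mem_cons_of_mem _ (mem_toList.mpr h)))
    rw [card_insert_of_notMem hyN]
    simpa using this
  have hlt : ∑ S ∈ Kc G (U.erase a) s, w s (pl G U S) < tot G (U.erase a) s := by
    apply sum_lt_sum
    · intro T hT
      rw [mem_Kc] at hT
      apply w_anti (by omega)
      · rw [← hT.2.1]; exact card_le_pl hT.2.2 hT.1
      · exact pl_mono hT.2.2 hT.1 (erase_subset _ _)
    · refine ⟨S, hSKc, w_strictAnti hs ?_ (by omega)⟩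
      rw [← hSs]; exact card_le_pl hScl (hSK.trans hKsub)
  exact absurd hsumeq hlt.ne

/-- Case of a closed longest path. -/
theorem case_two {U : Finset V} {s : ℕ} (hs : 2 ≤ s) {l c : List V}
    (hl : IsP G U l) (hmax : ∀ l', IsP G U l' → l'.length ≤ l.length)
    (hperm : c.Perm l) (hc : IsCyc G c)
    (ih1 : tot G (U \ l.toFinset) s ≤ (U \ l.toFinset).card)
    (ih2 : tot G (U \ l.toFinset) s = (U \ l.toFinset).card → EqU G (U \ l.toFinset) s) :
    tot G U s ≤ U.card ∧ (tot G U s = U.card → EqU G U s) := by
  set W := l.toFinset with hW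
  have hWU : W ⊆ U := fun x hx => hl.2.2 x (List.mem_toFinset.mp hx)
  have hWcard : W.card = l.length := List.toFinset_card_of_nodup hl.1
  -- no edges from `W` to the rest
  have hclosed : ∀ x ∈ W, ∀ y ∈ U, G.Adj x y → y ∈ W := by
    intro x hx y hy hxy
    by_contra hyW
    rw [hW, List.mem_toFinset] at hx hyW
    obtain ⟨c', hc'p, hc'c, hc'l⟩ := cyc_rotate hc (hperm.mem_iff.mpr hx)
    have hpp := hc'p.trans hperm
    have hP : IsP G U (c' ++ [y]) := by
      refine ⟨?_, ?_, ?_⟩
      · rw [List.nodup_append]
        refine ⟨hpp.nodup_iff.mpr hl.1, List.nodup_singleton y, ?_⟩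
        intro u hu v hv
        rw [List.mem_singleton] at hv
        rintro rfl
        rw [hv] at hu
        exact hyW (hpp.mem_iff.mp hu)
      · refine List.IsChain.append hc'c (List.isChain_singleton y) ?_
        intro u hu v hv
        rw [Option.mem_def, hc'l, Option.some_inj] at hu
        rw [Option.mem_def, List.head?_cons, Option.some_inj] at hv
        rw [← hu, ← hv]; exact hxy
      · intro z hz
        rcases List.mem_append.mp hz with hz | hz
        · exact hl.2.2 z (hpp.mem_iff.mp hz)
        · rw [List.mem_singleton] at hz; rw [hz]; exact hy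
    have := hmax _ hP
    rw [List.length_append, hpp.length_eq, List.length_singleton] at this
    omega
  have hsplit : Kc G U s = Kc G W s ∪ Kc G (U \ W) s := by
    ext S
    rw [mem_union, mem_Kc, mem_Kc, mem_Kc]
    constructor
    · rintro ⟨h1, h2, h3⟩
      by_cases hex : ∃ x ∈ S, x ∈ W
      · obtain ⟨x, hxS, hxW⟩ := hex
        refine Or.inl ⟨fun y hy => ?_, h2, h3⟩
        by_cases hxy : x = y
        · rw [← hxy]; exact hxW
        · exact hclosed x hxW y (h1 hy) (h3 hxS hy hxy)
      · push Not at hex
        exact Or.inr ⟨fun y hy => mem_sdiff.mpr ⟨h1 hy, hex y hy⟩, h2, h3⟩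
    · rintro (⟨h1, h2, h3⟩ | ⟨h1, h2, h3⟩)
      · exact ⟨h1.trans hWU, h2, h3⟩
      · exact ⟨h1.trans sdiff_subset, h2, h3⟩
  have hdisj : Disjoint (Kc G W s) (Kc G (U \ W) s) := by
    rw [disjoint_left]
    intro S h1 h2
    rw [mem_Kc] at h1 h2
    have hne : S.Nonempty := by rw [← card_pos]; omega
    obtain ⟨x, hx⟩ := hne
    exact (mem_sdiff.mp (h2.1 hx)).2 (h1.1 hx)
  have htot : tot G U s = ∑ S ∈ Kc G W s, w s (pl G U S)
      + ∑ S ∈ Kc G (U \ W) s, w s (pl G U S) := by
    unfold tot
    rw [hsplit, sum_union hdisj]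
  have hplW : ∀ S ∈ Kc G W s, pl G U S = W.card := by
    intro S hS
    rw [mem_Kc] at hS
    apply le_antisymm
    · rw [hWcard]
      exact pl_le hS.2.2 (hS.1.trans hWU) fun l' hl' _ => hmax l' hl'
    · rw [hWcard]
      exact le_pl hl fun x hx => List.mem_toFinset.mp (hS.1 hx)
  have hsumW : ∑ S ∈ Kc G W s, w s (pl G U S) = (Kc G W s).card * w s W.card := by
    rw [sum_congr rfl fun S hS => by rw [hplW S hS], sum_const, nsmul_eq_mul]
  have hcount : (Kc G W s).card ≤ W.card.choose s := by
    unfold Kc
    rw [← card_powersetCard]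
    exact card_filter_le _ _
  have hWle : ((Kc G W s).card : ℚ) * w s W.card ≤ W.card ∧
      (((Kc G W s).card : ℚ) * w s W.card = W.card → 0 < W.card →
        s ≤ W.card ∧ (Kc G W s).card = W.card.choose s) := by
    by_cases hsW : s ≤ W.card
    · have hpos : 0 < W.card.choose s := Nat.choose_pos hsW
      have hWpos : 0 < W.card := by omega
      have hposQ : (0 : ℚ) < (W.card.choose s : ℚ) := by exact_mod_cast hpos
      have hWposQ : (0 : ℚ) < (W.card : ℚ) := by exact_mod_cast hWpos
      constructor
      · unfold w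
        rw [mul_div_assoc', div_le_iff₀ hposQ, mul_comm]
        exact mul_le_mul_of_nonneg_left (by exact_mod_cast hcount) hWposQ.le
      · intro heq _
        refine ⟨hsW, ?_⟩
        unfold w at heq
        rw [mul_div_assoc', div_eq_iff hposQ.ne', mul_comm] at heq
        have := mul_left_cancel₀ hWposQ.ne' heq
        exact_mod_cast this
    · have h0 : (Kc G W s).card = 0 := by
        rw [Nat.choose_eq_zero_of_lt (by omega)] at hcount
        omega
      rw [h0]
      push_cast
      rw [zero_mul]
      refine ⟨by positivity, fun heq hpos => ?_⟩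
      exfalso
      have : (0 : ℚ) < (W.card : ℚ) := by exact_mod_cast hpos
      linarith
  have hsumR : ∑ S ∈ Kc G (U \ W) s, w s (pl G U S) ≤ tot G (U \ W) s := by
    apply sum_le_sum
    intro S hS
    rw [mem_Kc] at hS
    apply w_anti (by omega)
    · rw [← hS.2.1]; exact card_le_pl hS.2.2 hS.1
    · exact pl_mono hS.2.2 hS.1 sdiff_subset
  have hcardU : (U.card : ℚ) = W.card + (U \ W).card := by
    have := card_sdiff_add_card_eq_card hWU
    have h2 : ((U \ W).card + W.card : ℕ) = U.card := this
    rw [← h2]; push_cast; ring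
  constructor
  · rw [htot, hsumW, hcardU]
    linarith [hWle.1]
  · intro heq
    rw [htot, hsumW, hcardU] at heq
    have e1 : ((Kc G W s).card : ℚ) * w s W.card = W.card := by
      apply le_antisymm hWle.1
      linarith
    have e2 : tot G (U \ W) s = (U \ W).card := by
      apply le_antisymm ih1
      linarith
    have hER := ih2 e2
    rcases Nat.eq_zero_or_pos W.card with h0 | hpos
    · rw [card_eq_zero] at h0
      rw [h0, sdiff_empty] at hER
      exact hER
    obtain ⟨hsW, hfull⟩ := hWle.2 e1 hpos
    have hall : ∀ S ∈ W.powersetCard s, G.IsClique (S : Set V) := by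
      have : (W.powersetCard s).filter (fun S : Finset V => G.IsClique (S : Set V)) = W.powersetCard s := by
        apply Finset.eq_of_subset_of_card_le (filter_subset _ _)
        rw [card_powersetCard, ← hfull]
        rfl
      intro S hS
      rw [← this, mem_filter] at hS
      exact hS.2
    have hWcl : G.IsClique (W : Set V) := by
      intro u hu v hv huv
      have hsub : ({u, v} : Finset V) ⊆ W := by
        intro z hz
        rw [mem_insert, mem_singleton] at hz
        rcases hz with rfl | rfl
        · exact hu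
        · exact hv
      obtain ⟨S, h1, h2, h3⟩ := exists_subsuperset_card_eq hsub
        (by rw [card_pair huv]; exact hs) hsW
      exact hall S (mem_powersetCard.mpr ⟨h2, h3⟩) (h1 (by simp)) (h1 (by simp)) huv
    constructor
    · intro x hx y hy z hz hxy hyz hxz
      by_cases hxW : x ∈ W
      · have hyW := hclosed x hxW y hy hxy
        have hzW := hclosed y hyW z hz hyz
        exact hWcl hxW hzW hxz
      · have hyW : y ∉ W := fun h => hxW (hclosed y h x hx hxy.symm)
        have hzW : z ∉ W := fun h => hyW (hclosed z h y hy hyz.symm)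
        exact hER.1 x (mem_sdiff.mpr ⟨hx, hxW⟩) y (mem_sdiff.mpr ⟨hy, hyW⟩) z
          (mem_sdiff.mpr ⟨hz, hzW⟩) hxy hyz hxz
    · intro x hx
      by_cases hxW : x ∈ W
      · have hsub : W.erase x ⊆ U.filter fun y => G.Adj x y := by
          intro y hy
          rw [mem_erase] at hy
          rw [mem_filter]
          exact ⟨hWU hy.2, hWcl hxW hy.2 (Ne.symm hy.1)⟩
        have := card_le_card hsub
        rw [card_erase_of_mem hxW] at this
        omega
      · have h1 := hER.2 x (mem_sdiff.mpr ⟨hx, hxW⟩)
        have hsub : ((U \ W).filter fun y => G.Adj x y) ⊆ U.filter fun y => G.Adj x y :=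
          filter_subset_filter _ sdiff_subset
        have := card_le_card hsub
        omega

theorem exists_longest (U : Finset V) (hU : U.Nonempty) :
    ∃ l, IsP G U l ∧ l ≠ [] ∧ ∀ l', IsP G U l' → l'.length ≤ l.length := by
  obtain ⟨x, hx⟩ := hU
  have hne : {k | ∃ l, IsP G U l ∧ l.length = k}.Nonempty :=
    ⟨1, [x], ⟨List.nodup_singleton x, List.isChain_singleton x, by simpa using hx⟩, rfl⟩
  have hbdd : BddAbove {k | ∃ l, IsP G U l ∧ l.length = k} := by
    refine ⟨U.card, ?_⟩
    rintro k ⟨l, hl, rfl⟩
    exact hl.length_le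
  obtain ⟨l, hl, he⟩ := Nat.sSup_mem hne hbdd
  refine ⟨l, hl, ?_, fun l' hl' => ?_⟩
  · rintro rfl
    have h1 : 1 ≤ sSup {k | ∃ l, IsP G U l ∧ l.length = k} :=
      le_csSup hbdd ⟨[x], ⟨List.nodup_singleton x, List.isChain_singleton x, by simpa using hx⟩, rfl⟩
    rw [← he] at h1
    simp at h1
  · rw [he]
    exact le_csSup hbdd ⟨l', hl', rfl⟩

/-- The localised bound for cliques and paths, with the case of equality. -/
theorem tot_le {s : ℕ} (hs : 2 ≤ s) : ∀ (n : ℕ) (U : Finset V), U.card = n →
    tot G U s ≤ U.card ∧ (tot G U s = U.card → EqU G U s) := by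
  intro n
  induction n using Nat.strong_induction_on with
  | _ n ih =>
    intro U hn
    rcases U.eq_empty_or_nonempty with rfl | hne
    · constructor
      · unfold tot Kc
        rw [powersetCard_eq_empty.mpr (by simpa using by omega)]
        simp
      · intro _
        exact ⟨fun x hx => absurd hx (notMem_empty x), fun x hx => absurd hx (notMem_empty x)⟩
    obtain ⟨l, hl, hlne, hmax⟩ := exists_longest (G := G) U hne
    -- first endpoint
    obtain ⟨a, l1, rfl⟩ := List.exists_cons_of_ne_nil hlne
    have haU : a ∈ U := hl.2.2 a List.mem_cons_self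
    by_cases hda : 2 * (U.filter fun y => G.Adj a y).card + 1 ≤ (a :: l1).length
    · have hlt : (U.erase a).card < n := by rw [← hn]; exact card_erase_lt_of_mem haU
      obtain ⟨i1, i2⟩ := ih _ hlt (U.erase a) rfl
      have := case_one hs hl hmax hda i1 i2
      exact ⟨this.le, fun h => absurd h this.ne⟩
    -- last endpoint
    have hrev : IsP G U (a :: l1).reverse := by
      refine ⟨List.nodup_reverse.mpr hl.1, ?_, fun x hx => hl.2.2 x (List.mem_reverse.mp hx)⟩
      rw [List.isChain_reverse]
      exact hl.2.1.imp fun _ _ h => h.symm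
    have hrevne : (a :: l1).reverse ≠ [] := by simp
    obtain ⟨b, l2, hbl⟩ := List.exists_cons_of_ne_nil hrevne
    have hlen : (b :: l2).length = (a :: l1).length := by rw [← hbl, List.length_reverse]
    have hbP : IsP G U (b :: l2) := by rw [← hbl]; exact hrev
    have hbU : b ∈ U := hbP.2.2 b List.mem_cons_self
    have hmaxb : ∀ l', IsP G U l' → l'.length ≤ (b :: l2).length := by
      intro l' hl'; rw [hlen]; exact hmax l' hl'
    by_cases hdb : 2 * (U.filter fun y => G.Adj b y).card + 1 ≤ (b :: l2).length
    · have hlt : (U.erase b).card < n := by rw [← hn]; exact card_erase_lt_of_mem hbU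
      obtain ⟨i1, i2⟩ := ih _ hlt (U.erase b) rfl
      have := case_one hs hbP hmaxb hdb i1 i2
      exact ⟨this.le, fun h => absurd h this.ne⟩
    -- both endpoints have large degree
    have hblast : (a :: l1).getLast? = some b := by
      rw [← List.head?_reverse, hbl]; rfl
    have hext : ∀ (e : V) (r : List V), IsP G U (e :: r) →
        (∀ l', IsP G U l' → l'.length ≤ (e :: r).length) →
        ∀ y ∈ U, G.Adj e y → y ∈ e :: r := by
      intro e r hP hM y hy hey
      by_contra hyl
      have hP' : IsP G U (y :: e :: r) := by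
        refine ⟨List.nodup_cons.mpr ⟨hyl, hP.1⟩, ?_, ?_⟩
        · rw [List.isChain_cons]
          refine ⟨fun z hz => ?_, hP.2.1⟩
          rw [Option.mem_def, List.head?_cons, Option.some_inj] at hz
          rw [← hz]; exact hey.symm
        · intro z hz
          rcases List.mem_cons.mp hz with rfl | hz
          · exact hy
          · exact hP.2.2 z hz
      have := hM _ hP'
      rw [List.length_cons] at this
      omega
    have hNa := hext a l1 hl hmax
    have hNb : ∀ y ∈ U, G.Adj b y → y ∈ a :: l1 := by
      intro y hy hby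
      have := hext b l2 hbP hmaxb y hy hby
      rw [← hbl, List.mem_reverse] at this
      exact this
    obtain ⟨c, hcp, hc⟩ := exists_cyc hl (a := a) (b := b) (by simp) hblast hNa hNb
      (by omega) (by rw [← hlen]; omega)
    have hlt : (U \ (a :: l1).toFinset).card < n := by
      rw [← hn]
      apply card_lt_card
      refine ⟨sdiff_subset, fun h => ?_⟩
      have := h haU
      rw [mem_sdiff] at this
      exact this.2 (by simp)
    obtain ⟨i1, i2⟩ := ih _ hlt _ rfl
    exact case_two hs hl hmax hcp hc i1 i2

end Pool.Agent.Q263.Circ
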