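import Mathlib.Combinatorics.SimpleGraph.Clique
import Mathlib.Data.List.Chain
import Mathlib.Data.Rat.Cast.Order
import Mathlib.Tactic

/-!
# Localised bound for cliques and paths

For a finite set `U` of vertices of `G` and a clique `S ⊆ U`, `pl G U S` is the largest number of
vertices of a path inside `U` through all vertices of `S`. For `s ≥ 2` we show
`∑ pl(S) / C(pl(S), s) ≤ |U|`, the sum over the `s`-cliques in `U`, and if equality holds then
adjacency is transitive on `U` and every vertex of `U` has at least `s - 1` neighbours in `U`.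
-/

set_option autoImplicit false
open Finset
open scoped Classical

namespace Pool.Agent.Q263.Circ

variable {V : Type*} [Fintype V] {G : SimpleGraph V}

/-- `l` is (the vertex sequence of) a path of `G` inside `U`. -/
def IsP (G : SimpleGraph V) (U : Finset V) (l : List V) : Prop :=
  l.Nodup ∧ l.IsChain G.Adj ∧ ∀ x ∈ l, x ∈ U

/-- The largest number of vertices of a path inside `U` through `S`. -/
noncomputable def pl (G : SimpleGraph V) (U S : Finset V) : ℕ :=
  sSup {k | ∃ l, IsP G U l ∧ (∀ x ∈ S, x ∈ l) ∧ l.length = k}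

theorem IsP.length_le {U : Finset V} {l : List V} (h : IsP G U l) : l.length ≤ U.card := by
  rw [← List.toFinset_card_of_nodup h.1]
  apply card_le_card
  intro x hx
  exact h.2.2 x (List.mem_toFinset.mp hx)

theorem pl_bdd (U S : Finset V) :
    BddAbove {k | ∃ l, IsP G U l ∧ (∀ x ∈ S, x ∈ l) ∧ l.length = k} := by
  refine ⟨U.card, ?_⟩
  rintro k ⟨l, hl, -, rfl⟩
  exact hl.length_le

theorem le_pl {U S : Finset V} {l : List V} (h : IsP G U l) (hS : ∀ x ∈ S, x ∈ l) :
    l.length ≤ pl G U S :=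
  le_csSup (pl_bdd U S) ⟨l, h, hS, rfl⟩

/-- Any ordering of a clique is a path. -/
theorem isChain_of_clique {l : List V} (hn : l.Nodup)
    (h : ∀ x ∈ l, ∀ y ∈ l, x ≠ y → G.Adj x y) : l.IsChain G.Adj := by
  induction l with
  | nil => exact List.isChain_nil
  | cons a l ih =>
    rw [List.isChain_cons]
    rw [List.nodup_cons] at hn
    refine ⟨fun y hy => ?_, ih hn.2 fun x hx y hy => h x (List.mem_cons_of_mem _ hx) y
      (List.mem_cons_of_mem _ hy)⟩
    have hyl : y ∈ l := List.mem_of_mem_head? hy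
    exact h a List.mem_cons_self y (List.mem_cons_of_mem _ hyl) (fun e => hn.1 (e ▸ hyl))

theorem isP_of_clique {U S : Finset V} (hS : G.IsClique (S : Set V)) (hU : S ⊆ U) :
    IsP G U S.toList := by
  refine ⟨S.nodup_toList, isChain_of_clique S.nodup_toList ?_, ?_⟩
  · intro x hx y hy hxy
    rw [mem_toList] at hx hy
    exact hS hx hy hxy
  · intro x hx
    rw [mem_toList] at hx
    exact hU hx

theorem pl_nonempty {U S : Finset V} (hS : G.IsClique (S : Set V)) (hU : S ⊆ U) :
    {k | ∃ l, IsP G U l ∧ (∀ x ∈ S, x ∈ l) ∧ l.length = k}.Nonempty :=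
  ⟨_, S.toList, isP_of_clique hS hU, fun x hx => mem_toList.mpr hx, rfl⟩

theorem exists_pl {U S : Finset V} (hS : G.IsClique (S : Set V)) (hU : S ⊆ U) :
    ∃ l, IsP G U l ∧ (∀ x ∈ S, x ∈ l) ∧ l.length = pl G U S :=
  Nat.sSup_mem (pl_nonempty hS hU) (pl_bdd U S)

theorem card_le_pl {U S : Finset V} (hS : G.IsClique (S : Set V)) (hU : S ⊆ U) :
    S.card ≤ pl G U S := by
  have := le_pl (isP_of_clique hS hU) (S := S) (fun x hx => mem_toList.mpr hx)
  simpa using this

theorem pl_le {U S : Finset V} (hS : G.IsClique (S : Set V)) (hU : S ⊆ U) {k : ℕ}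
    (h : ∀ l, IsP G U l → (∀ x ∈ S, x ∈ l) → l.length ≤ k) : pl G U S ≤ k := by
  obtain ⟨l, hl, hS', he⟩ := exists_pl hS hU
  rw [← he]
  exact h l hl hS'

theorem pl_mono {U U' S : Finset V} (hS : G.IsClique (S : Set V)) (hU : S ⊆ U) (h : U ⊆ U') :
    pl G U S ≤ pl G U' S :=
  pl_le hS hU fun _ hl hSl => le_pl ⟨hl.1, hl.2.1, fun x hx => h (hl.2.2 x hx)⟩ hSl

/-- The weight of an `s`-clique on a longest path with `p` vertices. -/
noncomputable def w (s p : ℕ) : ℚ := (p : ℚ) / (p.choose s : ℚ)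

theorem w_eq {s p : ℕ} (hs : 1 ≤ s) (hp : s ≤ p) :
    w s p = (s : ℚ) / ((p - 1).choose (s - 1) : ℚ) := by
  obtain ⟨s, rfl⟩ : ∃ a, s = a + 1 := ⟨s - 1, by omega⟩
  obtain ⟨p, rfl⟩ : ∃ a, p = a + 1 := ⟨p - 1, by omega⟩
  unfold w
  have h1 : 0 < (p + 1).choose (s + 1) := Nat.choose_pos hp
  have h2 : 0 < p.choose s := Nat.choose_pos (by omega)
  have h3 := Nat.add_one_mul_choose_eq p s
  simp only [Nat.add_sub_cancel]
  rw [div_eq_div_iff (by positivity) (by positivity)]
  have h4 : ((p + 1 : ℕ) : ℚ) * (p.choose s : ℚ) = ((p + 1).choose (s + 1) : ℚ) * ((s + 1 : ℕ) : ℚ) := by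
    exact_mod_cast h3
  linarith

theorem w_pos {s p : ℕ} (hs : 1 ≤ s) (hp : s ≤ p) : 0 < w s p := by
  unfold w
  have h1 : 0 < p.choose s := Nat.choose_pos hp
  have : 0 < p := by omega
  positivity

theorem w_anti {s p q : ℕ} (hs : 1 ≤ s) (hp : s ≤ p) (hpq : p ≤ q) : w s q ≤ w s p := by
  rw [w_eq hs hp, w_eq hs (hp.trans hpq)]
  have h1 : 0 < (p - 1).choose (s - 1) := Nat.choose_pos (by omega)
  have h2 : (p - 1).choose (s - 1) ≤ (q - 1).choose (s - 1) := Nat.choose_le_choose _ (by omega)
  apply div_le_div_of_nonneg_left (by positivity) (by exact_mod_cast h1)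
  exact_mod_cast h2

theorem w_strictAnti {s p q : ℕ} (hs : 2 ≤ s) (hp : s ≤ p) (hpq : p < q) : w s q < w s p := by
  rw [w_eq (by omega) hp, w_eq (by omega) (hp.trans hpq.le)]
  have h1 : 0 < (p - 1).choose (s - 1) := Nat.choose_pos (by omega)
  have h2 : (p - 1).choose (s - 1) < (q - 1).choose (s - 1) := by
    have h3 : (p - 1).choose (s - 1) < (p - 1 + 1).choose (s - 1) := by
      obtain ⟨t, ht⟩ : ∃ t, s - 1 = t + 1 := ⟨s - 2, by omega⟩
      rw [ht, Nat.choose_succ_succ' (p - 1) t]
      have : 0 < (p - 1).choose t := Nat.choose_pos (by omega)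
      omega
    exact h3.trans_le (Nat.choose_le_choose _ (by omega))
  apply div_lt_div_of_pos_left
  · have : 0 < s := by omega
    exact_mod_cast this
  · exact_mod_cast h1
  · exact_mod_cast h2

/-- The `s`-cliques in `U`. -/
noncomputable def Kc (G : SimpleGraph V) (U : Finset V) (s : ℕ) : Finset (Finset V) :=
  (U.powersetCard s).filter fun S => G.IsClique (S : Set V)

theorem mem_Kc {U S : Finset V} {s : ℕ} :
    S ∈ Kc G U s ↔ S ⊆ U ∧ S.card = s ∧ G.IsClique (S : Set V) := by
  unfold Kc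
  rw [mem_filter, mem_powersetCard, and_assoc]

/-- The weighted number of `s`-cliques in `U`. -/
noncomputable def tot (G : SimpleGraph V) (U : Finset V) (s : ℕ) : ℚ :=
  ∑ S ∈ Kc G U s, w s (pl G U S)

/-- Adjacency is transitive on `U` and every vertex of `U` has at least `s - 1` neighbours. -/
def EqU (G : SimpleGraph V) (U : Finset V) (s : ℕ) : Prop :=
  (∀ x ∈ U, ∀ y ∈ U, ∀ z ∈ U, G.Adj x y → G.Adj y z → x ≠ z → G.Adj x z) ∧
    ∀ x ∈ U, s ≤ (U.filter fun y => G.Adj x y).card + 1

/-- With transitive adjacency, a path through a neighbourhood stays in it. -/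
theorem path_in_nbhd {U : Finset V}
    (ht : ∀ x ∈ U, ∀ y ∈ U, ∀ z ∈ U, G.Adj x y → G.Adj y z → x ≠ z → G.Adj x z) (y : V) (hy : y ∈ U) :
    ∀ l : List V, IsP G U l → (∃ x ∈ l, x = y ∨ G.Adj y x) → ∀ x ∈ l, x = y ∨ G.Adj y x := by
  intro l
  induction l with
  | nil => intro _ _ x hx; exact absurd hx List.not_mem_nil
  | cons a l ih =>
    rintro ⟨hn, hc, hU⟩ ⟨x, hx, hxy⟩
    rw [List.nodup_cons] at hn
    rw [List.isChain_cons] at hc
    have haU : a ∈ U := hU a List.mem_cons_self
    have hl : IsP G U l := ⟨hn.2, hc.2, fun z hz => hU z (List.mem_cons_of_mem _ hz)⟩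
    cases l with
    | nil =>
      intro z hz
      rw [List.mem_singleton] at hx hz
      rw [hz, ← hx]
      exact hxy
    | cons b l =>
      have hab : G.Adj a b := hc.1 b (by simp)
      have hbU : b ∈ U := hU b (by simp)
      have step : (a = y ∨ G.Adj y a) ↔ (b = y ∨ G.Adj y b) := by
        constructor
        · rintro (rfl | h)
          · exact Or.inr hab
          · by_cases hby : b = y
            · exact Or.inl hby
            · exact Or.inr (ht y hy a haU b hbU h hab (Ne.symm hby))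
        · rintro (rfl | h)
          · exact Or.inr hab.symm
          · by_cases hay : a = y
            · exact Or.inl hay
            · exact Or.inr (ht y hy b hbU a haU h hab.symm (Ne.symm hay))
      have hex : ∃ x ∈ b :: l, x = y ∨ G.Adj y x := by
        rcases List.mem_cons.mp hx with rfl | hx
        · exact ⟨b, List.mem_cons_self, step.mp hxy⟩
        · exact ⟨x, hx, hxy⟩
      have h1 := ih hl hex
      intro z hz
      rcases List.mem_cons.mp hz with rfl | hz
      · exact step.mpr (h1 b List.mem_cons_self)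
      · exact h1 z hz

theorem two_pow_ge (s : ℕ) (hs : 1 ≤ s) : s + 1 ≤ 2 ^ s := by
  induction s, hs using Nat.le_induction with
  | base => norm_num
  | succ n hn ih => rw [pow_succ]; omega

/-- `2^j C(d, j) ≤ C(2d, j)`. -/
theorem choose_double (d : ℕ) : ∀ j, 2 ^ j * d.choose j ≤ (2 * d).choose j := by
  intro j
  induction j with
  | zero => simp
  | succ j ih =>
    have h1 := Nat.choose_succ_right_eq d j
    have h2 := Nat.choose_succ_right_eq (2 * d) j
    have h3 : 2 * (d - j) ≤ 2 * d - j := by omega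
    have h4 : (2 ^ (j + 1) * d.choose (j + 1)) * (j + 1) ≤ (2 * d).choose (j + 1) * (j + 1) := by
      calc (2 ^ (j + 1) * d.choose (j + 1)) * (j + 1)
          = 2 ^ (j + 1) * (d.choose (j + 1) * (j + 1)) := by ring
        _ = 2 ^ (j + 1) * (d.choose j * (d - j)) := by rw [h1]
        _ = (2 ^ j * d.choose j) * (2 * (d - j)) := by rw [pow_succ]; ring
        _ ≤ (2 * d).choose j * (2 * d - j) := Nat.mul_le_mul ih h3
        _ = (2 * d).choose (j + 1) * (j + 1) := h2.symm
    exact Nat.le_of_mul_le_mul_right h4 (Nat.succ_pos j)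

/-- The cliques through an endpoint of degree at most `(k - 1) / 2` of a longest path. -/
theorem end_bound {s d k : ℕ} (hs : 2 ≤ s) (hd : 2 * d + 1 ≤ k) (hk : s ≤ k) :
    (d.choose (s - 1) : ℚ) * w s k ≤ 1 := by
  rw [w_eq (by omega) hk]
  have h1 : 0 < (k - 1).choose (s - 1) := Nat.choose_pos (by omega)
  have h2 : s * d.choose (s - 1) ≤ (k - 1).choose (s - 1) := by
    have h3 := choose_double d (s - 1)
    have h4 := two_pow_ge (s - 1) (by omega)
    have h5 : (2 * d).choose (s - 1) ≤ (k - 1).choose (s - 1) :=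
      Nat.choose_le_choose _ (by omega)
    calc s * d.choose (s - 1) ≤ 2 ^ (s - 1) * d.choose (s - 1) :=
          Nat.mul_le_mul_right _ (by omega)
      _ ≤ _ := h3.trans h5
  rw [mul_div_assoc', div_le_one (by exact_mod_cast h1)]
  have h6 : ((s * d.choose (s - 1) : ℕ) : ℚ) ≤ ((k - 1).choose (s - 1) : ℚ) := by exact_mod_cast h2
  push_cast at h6
  linarith

end Pool.Agent.Q263.Circ
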